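import Pool.Agent.W360.MQ.Stm

/-! Project HQ: every rotation invariant, positively homogeneous rank-one convex function on real
`2 × 2` matrices (of class `C^2` off the origin) is quasiconvex.  Statements of the parts. -/

set_option autoImplicit false

namespace Pool.Agent.W581.HQ

open MeasureTheory Set Filter Topology
open Pool.Agent.W360.MQ (RC wf QA cab RankOneConvex Quasiconvex)

/-- real `2 × 2` matrices -/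
abbrev M2 := Matrix (Fin 2) (Fin 2) ℝ

/-- the rotation by the angle `t` -/
noncomputable def R (t : ℝ) : M2 := !![Real.cos t, -Real.sin t; Real.sin t, Real.cos t]

/-- diagonal matrices -/
def dg (s t : ℝ) : M2 := !![s, 0; 0, t]

/-- the hypotheses on `W`, without smoothness -/
structure Hyp (p : ℝ) (W : M2 → ℝ) : Prop where
  p1 : 1 < p
  inv : ∀ (s t : ℝ) (A : M2), W (R s * A * R t) = W A
  hom : ∀ (r : ℝ) (A : M2), 0 < r → W (r • A) = r ^ p * W A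
  roc : RankOneConvex W

/-- the profile of `W` -/
def phi (W : M2 → ℝ) (t : ℝ) : ℝ := W (dg 1 t)

/-- the function of `(x, y) = (|u_z|, |u_zbar|)` with profile `φ` -/
noncomputable def wp (p : ℝ) (φ : ℝ → ℝ) (x y : ℝ) : ℝ := (x + y) ^ p * φ ((x - y) / (x + y))

/-- the quantity `K` -/
noncomputable def KK (p : ℝ) (φ : ℝ → ℝ) (t : ℝ) : ℝ := (p * t + p - 2) * deriv φ t - p * φ t

/-- the conditions on the profile -/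
structure DH (p : ℝ) (φ : ℝ → ℝ) : Prop where
  p1 : 1 < p
  sm : ContDiff ℝ 2 φ
  cv : ConvexOn ℝ univ φ
  e1 : 2 * deriv φ 1 = p * φ 1
  a0 : ∀ t ∈ Icc (-1 : ℝ) 1, 2 * t * deriv φ t ≤ p * φ t
  rc : ∀ t ∈ Ioo (-1 : ℝ) 1, 0 < KK p φ t → KK p φ t ^ 2 ≤
    ((p - 1) * (1 + t) ^ 2 * (p * φ t - 2 * t * deriv φ t) + 2 * t * (1 + t) * KK p φ t)
      * deriv (deriv φ) t

/-! ### from `W` to the profile -/

/-- singular values, with sign: `σ = |a| + |b|`, `δ = |a| - |b|` -/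
def S_SVD : Prop := ∀ A : M2, ∃ s t : ℝ,
  A = R s * dg (‖(cab A).1‖ + ‖(cab A).2‖) (‖(cab A).1‖ - ‖(cab A).2‖) * R t

def S_REP : Prop := ∀ (p : ℝ) (W : M2 → ℝ), Hyp p W → ∀ A : M2,
  W A = wp p (phi W) ‖(cab A).1‖ ‖(cab A).2‖

def S_REC : Prop := ∀ (p : ℝ) (W : M2 → ℝ), Hyp p W →
  (∀ t : ℝ, t ≠ 0 → phi W t = |t| ^ p * phi W t⁻¹) ∧
  (ContDiff ℝ 2 (phi W) → 2 * deriv (phi W) 1 = p * phi W 1)

def S_CV : Prop := ∀ (p : ℝ) (W : M2 → ℝ), Hyp p W → ConvexOn ℝ univ (phi W)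

def S_A0 : Prop := ∀ (p : ℝ) (W : M2 → ℝ), Hyp p W → ContDiff ℝ 2 (phi W) →
  ∀ t ∈ Icc (-1 : ℝ) 1, 2 * t * deriv (phi W) t ≤ p * phi W t

/-- the second singular value along a rank-one line -/
noncomputable def dl (t h s : ℝ) : ℝ := (1 - h) * (t + h) / (s - h) - h

/-- rank-one convexity along `s ↦ (s, dl t h s)`: there is a convex function of `y = (σ - δ) / 2` -/
def LineCvx (p : ℝ) (φ : ℝ → ℝ) (t h : ℝ) : Prop := ∃ f : ℝ → ℝ, ConvexOn ℝ univ f ∧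
  ∀ᶠ s in 𝓝 (1 : ℝ), f ((s - dl t h s) / 2) = s ^ p * φ (dl t h s / s)

def S_R3A : Prop := ∀ (p : ℝ) (W : M2 → ℝ), Hyp p W → ∀ t ∈ Ioo (-1 : ℝ) 1, ∀ h : ℝ,
  -t ≤ h → h < 1 → LineCvx p (phi W) t h

def S_R3B : Prop := ∀ (p : ℝ) (φ : ℝ → ℝ), 1 < p → ContDiff ℝ 2 φ → ∀ t ∈ Ioo (-1 : ℝ) 1,
  ∀ z : ℝ, 0 ≤ z → LineCvx p φ t ((z - t) / (1 + z)) →
  0 ≤ deriv (deriv φ) t * (z + t) ^ 2 - 2 * (KK p φ t / (1 + t)) * z
    + (p - 1) * (p * φ t - 2 * t * deriv φ t)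

/-- the reflected function -/
def mir (W : M2 → ℝ) (A : M2) : ℝ := W (A * dg 1 (-1))

def S_MIR : Prop := ∀ (p : ℝ) (W : M2 → ℝ), Hyp p W → Hyp p (mir W) ∧
  ∀ t, phi (mir W) t = phi W (-t)

def S_DH : Prop := ∀ (p : ℝ) (W : M2 → ℝ), Hyp p W → ContDiff ℝ 2 (phi W) →
  DH p (phi W) ∧ DH p (fun t => phi W (-t))

/-! ### supporting functions -/

/-- `wp p φ` has a supporting function of the form `α(σ) + β(σ) (x² - y²)` at `(x₀, y₀)` -/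
def Sup (p : ℝ) (φ : ℝ → ℝ) (x₀ y₀ : ℝ) : Prop := ∃ α β : ℝ → ℝ, RC α β ∧
  (∀ x y : ℝ, 0 ≤ x → 0 ≤ y → α (x + y) + β (x + y) * (x ^ 2 - y ^ 2) ≤ wp p φ x y) ∧
  α (x₀ + y₀) + β (x₀ + y₀) * (x₀ ^ 2 - y₀ ^ 2) = wp p φ x₀ y₀

/-- homogeneous functions -/
def S_HOM : Prop := ∀ p A B : ℝ, 1 < p → |p - 2| * |B| ≤ p * A →
  RC (fun s => A * s ^ p) (fun s => B * s ^ (p - 2))

/-- the tangent line of the profile gives a supporting function -/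
def S_SUPA : Prop := ∀ (p : ℝ) (φ : ℝ → ℝ), DH p φ → ∀ t ∈ Icc (-1 : ℝ) 1,
  |p - 2| * |deriv φ t| ≤ p * (φ t - t * deriv φ t) →
  Sup p φ 0 0 ∧ ∀ s : ℝ, 0 < s → Sup p φ (s * (1 + t) / 2) (s * (1 - t) / 2)

/-- superposition of Sverak kernels -/
def S_KP : Prop := ∀ h : ℝ → ℝ, ConvexOn ℝ (Ici 0) h → ContinuousOn h (Ici 0) → h 0 = 0 →
  ∀ c : ℝ, RC (fun s => s * h s / 2 - (∫ u in (0 : ℝ)..s, h u) + c) (fun s => h s / (2 * s))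

/-- the last zero of `K` -/
structure TC (p : ℝ) (φ : ℝ → ℝ) (tc : ℝ) : Prop where
  ge : -1 ≤ tc
  lt : tc < 1
  zero : KK p φ tc = 0
  pos : ∀ t ∈ Ioc tc 1, 0 < KK p φ t ∧ 0 < p * t + p - 2 ∧ 0 < deriv (deriv φ) t

def S_TC : Prop := ∀ (p : ℝ) (φ : ℝ → ℝ), DH p φ → ∀ t ∈ Icc (-1 : ℝ) 1, 0 < KK p φ t →
  ∃ tc, TC p φ tc ∧ tc < t

/-- the curve of contact `t = τ(σ)` -/
structure Cv (p : ℝ) (φ : ℝ → ℝ) (tc : ℝ) (τ : ℝ → ℝ) : Prop where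
  one : τ 1 = 1
  mem : ∀ s, 1 < s → tc < τ s ∧ τ s < 1
  cont : ContinuousOn τ (Ici 1)
  der : ∀ s, 1 < s → HasDerivAt τ
    (-(KK p φ (τ s)) / ((1 + τ s) * deriv (deriv φ) (τ s) * s)) s
  onto : ∀ t ∈ Ioc tc 1, ∃ s, 1 ≤ s ∧ τ s = t

def S_INV : Prop := ∀ (p : ℝ) (φ : ℝ → ℝ), DH p φ → ∀ tc, TC p φ tc → ∃ τ, Cv p φ tc τ

/-- the function `h` -/
noncomputable def hh (p : ℝ) (φ τ : ℝ → ℝ) (s : ℝ) : ℝ :=
  if s ≤ 1 then 2 * deriv φ 1 * s else 2 * s ^ (p - 1) * deriv φ (τ s)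

def S_HC : Prop := ∀ (p : ℝ) (φ : ℝ → ℝ), DH p φ → ∀ tc, TC p φ tc → ∀ τ, Cv p φ tc τ →
  ConvexOn ℝ (Ici 0) (hh p φ τ) ∧ ContinuousOn (hh p φ τ) (Ici 0)

def S_ID : Prop := ∀ (p : ℝ) (φ : ℝ → ℝ), DH p φ → ∀ tc, TC p φ tc → ∀ τ, Cv p φ tc τ →
  ∀ s, 1 ≤ s → s * hh p φ τ s / 2 - (∫ u in (0 : ℝ)..s, hh p φ τ u)
    - (p - 2) / p * deriv φ 1 = s ^ p * (φ (τ s) - τ s * deriv φ (τ s))

/-- the supporting function in the remaining case -/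
def S_SUPB : Prop := ∀ (p : ℝ) (φ : ℝ → ℝ), DH p φ → ∀ t ∈ Icc (-1 : ℝ) 1, 0 < KK p φ t →
  ∀ s : ℝ, 0 < s → Sup p φ (s * (1 + t) / 2) (s * (1 - t) / 2)

def S_SUP : Prop := ∀ (p : ℝ) (φ : ℝ → ℝ), DH p φ → DH p (fun t => φ (-t)) →
  ∀ x y : ℝ, 0 ≤ x → 0 ≤ y → Sup p φ x y

/-! ### conclusion -/

def S_FIN : Prop := ∀ (p : ℝ) (W : M2 → ℝ), Hyp p W →
  (∀ x y : ℝ, 0 ≤ x → 0 ≤ y → Sup p (phi W) x y) → Quasiconvex W

/-- **the theorem** -/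
def S_HQ : Prop := ∀ (p : ℝ) (W : M2 → ℝ), Hyp p W → ContDiff ℝ 2 (phi W) → Quasiconvex W

end Pool.Agent.W581.HQ
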